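import Mathlib

/-!
# EHP (MP_ff60c2_an), block REG: the test function as a function of `z`

`xq Q z = (1/n) log |Q z|`.  For `FF (l, t)` smooth and constant in `t` for `t ≤ η` (`0 ≤ η`), the function
`tf FF ψ Q z = FF (log |z|, xq Q z)` (`= ψ 0` at `z = 0`, `FF (log r, η) = ψ r`) is smooth off `0`, and
Lipschitz on every disc.
-/

set_option autoImplicit false

open Polynomial Complex MeasureTheory Set Filter Topology
open scoped Real NNReal

noncomputable section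

namespace Pool.Agent.H22.EH

/-- the level function of `Q` -/
def xq (Q : ℂ[X]) (z : ℂ) : ℝ := (1 / (Q.natDegree : ℝ)) * Real.log ‖Q.eval z‖

theorem contDiff_eval (Q : ℂ[X]) {n : WithTop ℕ∞} : ContDiff ℝ n (fun z : ℂ => Q.eval z) := by
  have h : ContDiff ℂ n (fun z : ℂ => Q.eval z) := by
    have := Q.contDiff_aeval (𝕜 := ℂ) (R := ℂ) n
    simpa using this
  exact h.restrict_scalars ℝ

theorem contDiffAt_xq (Q : ℂ[X]) {n : WithTop ℕ∞} {z : ℂ} (hz : Q.eval z ≠ 0) :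
    ContDiffAt ℝ n (xq Q) z := by
  unfold xq
  refine contDiffAt_const.mul ?_
  refine ContDiffAt.log ?_ (by simpa using hz)
  exact ContDiffAt.norm ℝ (contDiff_eval Q).contDiffAt hz

/-- where `|Q| < 1`, `xq Q ≤ η` for every `η ≥ 0` (at the zeros the Lean value is `0`) -/
theorem eventually_xq_le (Q : ℂ[X]) {η : ℝ} (hη : 0 ≤ η) {z : ℂ}
    (hz : ‖Q.eval z‖ < 1) : ∀ᶠ w in 𝓝 z, xq Q w ≤ η := by
  have hc : Continuous fun w : ℂ => ‖Q.eval w‖ := by fun_prop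
  have h1 : ∀ᶠ w in 𝓝 z, ‖Q.eval w‖ < 1 := (hc.tendsto z).eventually (gt_mem_nhds hz)
  filter_upwards [h1] with w hw
  have h2 : Real.log ‖Q.eval w‖ ≤ 0 := Real.log_nonpos (norm_nonneg _) hw.le
  refine le_trans ?_ hη
  unfold xq
  exact mul_nonpos_of_nonneg_of_nonpos (by positivity) h2

theorem contDiffAt_FF {FF : ℝ × ℝ → ℝ} {n : WithTop ℕ∞} (hFF : ContDiff ℝ n FF) {η : ℝ}
    (hη : 0 ≤ η) (hc : ∀ l t, t ≤ η → FF (l, t) = FF (l, η)) (Q : ℂ[X]) {z : ℂ} (hz : z ≠ 0) :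
    ContDiffAt ℝ n (fun w : ℂ => FF (Real.log ‖w‖, xq Q w)) z := by
  have hl : ContDiffAt ℝ n (fun w : ℂ => Real.log ‖w‖) z :=
    ContDiffAt.log (ContDiffAt.norm ℝ contDiffAt_id hz) (by simpa using hz)
  by_cases hQ : Q.eval z = 0
  · have h1 : ContDiffAt ℝ n (fun w : ℂ => FF (Real.log ‖w‖, η)) z :=
      hFF.contDiffAt.comp z (hl.prodMk contDiffAt_const)
    refine h1.congr_of_eventuallyEq ?_
    filter_upwards [eventually_xq_le Q hη (by simp [hQ] : ‖Q.eval z‖ < 1)] with w hw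
    exact hc _ _ hw
  · exact hFF.contDiffAt.comp z (hl.prodMk (contDiffAt_xq Q hQ))

theorem contDiff_beta {β : ℝ → ℝ} {n : WithTop ℕ∞} (hβ : ContDiff ℝ n β) {η : ℝ}
    (hη : 0 ≤ η) (hc : ∀ t, t ≤ η → β t = β η) (Q : ℂ[X]) :
    ContDiff ℝ n (fun w : ℂ => β (xq Q w)) := by
  rw [contDiff_iff_contDiffAt]
  intro z
  by_cases hQ : Q.eval z = 0
  · refine (contDiffAt_const (c := β η)).congr_of_eventuallyEq ?_
    filter_upwards [eventually_xq_le Q hη (by simp [hQ] : ‖Q.eval z‖ < 1)] with w hw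
    exact hc _ hw
  · exact hβ.contDiffAt.comp z (contDiffAt_xq Q hQ)

/-- the test function -/
def tf (FF : ℝ × ℝ → ℝ) (ψ : ℝ → ℝ) (Q : ℂ[X]) (z : ℂ) : ℝ :=
  if z = 0 then ψ 0 else FF (Real.log ‖z‖, xq Q z)

/-- the part of the test function which vanishes near `0` -/
def tv (FF : ℝ × ℝ → ℝ) (η : ℝ) (Q : ℂ[X]) (z : ℂ) : ℝ :=
  if z = 0 then 0 else FF (Real.log ‖z‖, xq Q z) - FF (Real.log ‖z‖, η)

theorem tf_eq {FF : ℝ × ℝ → ℝ} {ψ : ℝ → ℝ} {η : ℝ} (hψ : ∀ r, 0 < r → FF (Real.log r, η) = ψ r)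
    (Q : ℂ[X]) (z : ℂ) : tf FF ψ Q z = ψ ‖z‖ + tv FF η Q z := by
  unfold tf tv
  by_cases hz : z = 0
  · simp [hz]
  · rw [if_neg hz, if_neg hz, hψ _ (norm_pos_iff.2 hz)]
    ring

theorem contDiff_tv {FF : ℝ × ℝ → ℝ} {n : WithTop ℕ∞} (hFF : ContDiff ℝ n FF) {η : ℝ}
    (hη : 0 ≤ η) (hc : ∀ l t, t ≤ η → FF (l, t) = FF (l, η)) (Q : ℂ[X]) (h0 : ‖Q.eval 0‖ < 1) :
    ContDiff ℝ n (tv FF η Q) := by
  rw [contDiff_iff_contDiffAt]
  intro z
  by_cases hz : z = 0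
  · subst hz
    refine (contDiffAt_const (c := (0 : ℝ))).congr_of_eventuallyEq ?_
    filter_upwards [eventually_xq_le Q hη h0] with w hw
    unfold tv
    by_cases hw0 : w = 0
    · simp [hw0]
    · rw [if_neg hw0, hc _ _ hw, sub_self]
  · have hl : ContDiffAt ℝ n (fun w : ℂ => Real.log ‖w‖) z :=
      ContDiffAt.log (ContDiffAt.norm ℝ contDiffAt_id hz) (by simpa using hz)
    have h1 : ContDiffAt ℝ n (fun w : ℂ => FF (Real.log ‖w‖, η)) z :=
      hFF.contDiffAt.comp z (hl.prodMk contDiffAt_const)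
    refine ((contDiffAt_FF hFF hη hc Q hz).sub h1).congr_of_eventuallyEq ?_
    filter_upwards [isOpen_ne.mem_nhds hz] with w hw
    unfold tv
    rw [if_neg hw]

/-- the test function is smooth off `0` -/
theorem contDiffAt_tf {FF : ℝ × ℝ → ℝ} {ψ : ℝ → ℝ} {n : WithTop ℕ∞} (hFF : ContDiff ℝ n FF) {η : ℝ}
    (hη : 0 ≤ η) (hc : ∀ l t, t ≤ η → FF (l, t) = FF (l, η)) (Q : ℂ[X]) {z : ℂ} (hz : z ≠ 0) :
    ContDiffAt ℝ n (tf FF ψ Q) z := by
  refine (contDiffAt_FF hFF hη hc Q hz).congr_of_eventuallyEq ?_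
  filter_upwards [isOpen_ne.mem_nhds hz] with w hw
  unfold tf
  rw [if_neg hw]

theorem lipschitzOnWith_of_contDiff {v : ℂ → ℝ} (hv : ContDiff ℝ 1 v) (R : ℝ) :
    ∃ K : ℝ≥0, LipschitzOnWith K v (Metric.closedBall 0 R) := by
  have h1 : Continuous (fderiv ℝ v) := hv.continuous_fderiv (by norm_num)
  obtain ⟨M, hM⟩ := (isCompact_closedBall (0 : ℂ) R).exists_bound_of_continuousOn h1.continuousOn
  refine ⟨M.toNNReal, ?_⟩
  refine Convex.lipschitzOnWith_of_nnnorm_fderiv_le (𝕜 := ℝ)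
    (fun x _ => (hv.differentiable (by norm_num)).differentiableAt) ?_ (convex_closedBall 0 R)
  intro x hx
  rw [← NNReal.coe_le_coe, coe_nnnorm]
  exact (hM x hx).trans (Real.le_coe_toNNReal M)

/-- **(REG)** the test function is Lipschitz on every disc -/
theorem lipschitzOnWith_tf {FF : ℝ × ℝ → ℝ} {ψ : ℝ → ℝ} (hFF : ContDiff ℝ 1 FF) {η : ℝ}
    (hη : 0 ≤ η) (hc : ∀ l t, t ≤ η → FF (l, t) = FF (l, η))
    (hψ : ∀ r, 0 < r → FF (Real.log r, η) = ψ r) (Q : ℂ[X]) (h0 : ‖Q.eval 0‖ < 1) {R : ℝ}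
    {L : ℝ≥0} (hL : LipschitzOnWith L ψ (Icc 0 R)) :
    ∃ K : ℝ≥0, LipschitzOnWith K (tf FF ψ Q) (Metric.closedBall 0 R) := by
  obtain ⟨K, hK⟩ := lipschitzOnWith_of_contDiff (contDiff_tv hFF hη hc Q h0) R
  refine ⟨L * 1 + K, ?_⟩
  have h1 : LipschitzOnWith (L * 1) (fun z : ℂ => ψ ‖z‖) (Metric.closedBall 0 R) :=
    hL.comp (lipschitzWith_one_norm.lipschitzOnWith)
      (fun z hz => ⟨norm_nonneg _, by simpa using hz⟩)
  have h2 := h1.add hK
  intro x hx y hy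
  rw [tf_eq hψ Q x, tf_eq hψ Q y]
  exact h2 hx hy

/-! ### gradient in the coordinates `(l, φ)` -/

/-- the gradient of `u` and of `w (l, φ) = u (e^{l + i φ})` -/
theorem grad_sq_exp (A : ℂ →L[ℝ] ℝ) (z : ℂ) :
    A z ^ 2 + A (I * z) ^ 2 = ‖z‖ ^ 2 * (A 1 ^ 2 + A I ^ 2) := by
  have h1 : A z = z.re * A 1 + z.im * A I := by
    conv_lhs => rw [← re_add_im z]
    rw [map_add]
    have e1 : ((z.re : ℝ) : ℂ) = z.re • (1 : ℂ) := by simp
    have e2 : ((z.im : ℝ) : ℂ) * I = z.im • I := by simp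
    rw [e1, e2, map_smul, map_smul]
    rfl
  have h2 : A (I * z) = -z.im * A 1 + z.re * A I := by
    have : I * z = (-z.im) • (1 : ℂ) + z.re • I := by
      apply Complex.ext <;> simp
    rw [this, map_add, map_smul, map_smul]
    rfl
  rw [h1, h2, ← normSq_eq_norm_sq, normSq_apply]
  ring

theorem hasFDerivAt_expmap (y : ℝ × ℝ) :
    HasFDerivAt (fun y : ℝ × ℝ => Complex.exp (y.1 + y.2 * I))
      ((ContinuousLinearMap.fst ℝ ℝ ℝ).smulRight (Complex.exp (y.1 + y.2 * I)) +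
        (ContinuousLinearMap.snd ℝ ℝ ℝ).smulRight (I * Complex.exp (y.1 + y.2 * I))) y := by
  have h1 : HasFDerivAt (fun y : ℝ × ℝ => (y.1 : ℂ) + y.2 * I)
      (ofRealCLM.comp (ContinuousLinearMap.fst ℝ ℝ ℝ) +
        (ofRealCLM.comp (ContinuousLinearMap.snd ℝ ℝ ℝ)).smulRight I) y := by
    refine HasFDerivAt.add ?_ ?_
    · exact (ofRealCLM.hasFDerivAt).comp y hasFDerivAt_fst
    · have := ((ofRealCLM.hasFDerivAt (x := y.2)).comp y
        (hasFDerivAt_snd (𝕜 := ℝ) (p := y))).mul_const' I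
      refine this.congr_fderiv ?_
      ext <;> simp
  have h2 := h1.cexp
  refine h2.congr_fderiv ?_
  ext <;> simp [mul_comm]

theorem fderiv_comp_exp {u : ℂ → ℝ} {y : ℝ × ℝ}
    (hu : DifferentiableAt ℝ u (Complex.exp (y.1 + y.2 * I))) :
    fderiv ℝ (fun y : ℝ × ℝ => u (Complex.exp (y.1 + y.2 * I))) y (1, 0) =
        fderiv ℝ u (Complex.exp (y.1 + y.2 * I)) (Complex.exp (y.1 + y.2 * I)) ∧
      fderiv ℝ (fun y : ℝ × ℝ => u (Complex.exp (y.1 + y.2 * I))) y (0, 1) =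
        fderiv ℝ u (Complex.exp (y.1 + y.2 * I)) (I * Complex.exp (y.1 + y.2 * I)) := by
  have h := (hu.hasFDerivAt.comp y (hasFDerivAt_expmap y)).fderiv
  have h' : fderiv ℝ (fun y : ℝ × ℝ => u (Complex.exp (y.1 + y.2 * I))) y =
      (fderiv ℝ u (Complex.exp (y.1 + y.2 * I))).comp
      ((ContinuousLinearMap.fst ℝ ℝ ℝ).smulRight (Complex.exp (y.1 + y.2 * I)) +
        (ContinuousLinearMap.snd ℝ ℝ ℝ).smulRight (I * Complex.exp (y.1 + y.2 * I))) := h
  rw [h']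
  constructor
  · simp
  · simp

/-- the gradient of `w (l, φ) = u (e^{l + i φ})` -/
theorem grad_comp_exp {u : ℂ → ℝ} {y : ℝ × ℝ}
    (hu : DifferentiableAt ℝ u (Complex.exp (y.1 + y.2 * I))) :
    (fderiv ℝ (fun y : ℝ × ℝ => u (Complex.exp (y.1 + y.2 * I))) y (1, 0)) ^ 2 +
      (fderiv ℝ (fun y : ℝ × ℝ => u (Complex.exp (y.1 + y.2 * I))) y (0, 1)) ^ 2 =
    Real.exp y.1 ^ 2 * ((fderiv ℝ u (Complex.exp (y.1 + y.2 * I)) 1) ^ 2 +
      (fderiv ℝ u (Complex.exp (y.1 + y.2 * I)) I) ^ 2) := by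
  obtain ⟨h1, h2⟩ := fderiv_comp_exp hu
  rw [h1, h2, grad_sq_exp]
  congr 2
  rw [Complex.norm_exp]
  simp

/-! ### the level function near infinity -/

theorem xq_eq_sum {Q : ℂ[X]} (hQ : Q.Monic) {z : ℂ} (hz : Q.eval z ≠ 0) :
    xq Q z = (1 / (Q.natDegree : ℝ)) * (Q.roots.map fun a => Real.log ‖z - a‖).sum := by
  have h1 : Q.eval z = (Q.roots.map fun a => z - a).prod := by
    conv_lhs => rw [(IsAlgClosed.splits Q).eq_prod_roots_of_monic hQ]
    rw [eval_multiset_prod, Multiset.map_map]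
    congr 1
    refine Multiset.map_congr rfl fun a _ => ?_
    simp
  have h0 : ∀ a ∈ Q.roots, z - a ≠ 0 := by
    intro a ha h
    rw [sub_eq_zero] at h
    subst h
    exact hz ((mem_roots hQ.ne_zero).1 ha)
  unfold xq
  rw [h1]
  congr 1
  revert h0
  generalize Q.roots = s
  intro h0
  induction s using Multiset.induction_on with
  | empty => simp
  | cons a s ih =>
    rw [Multiset.map_cons, Multiset.prod_cons, norm_mul, Multiset.map_cons, Multiset.sum_cons,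
      Real.log_mul, ih]
    · intro b hb
      exact h0 b (Multiset.mem_cons_of_mem hb)
    · simpa using h0 a (Multiset.mem_cons_self a s)
    · rw [norm_ne_zero_iff]
      refine Multiset.prod_ne_zero ?_
      intro hmem
      obtain ⟨b, hb, hb0⟩ := Multiset.mem_map.1 hmem
      exact h0 b (Multiset.mem_cons_of_mem hb) hb0

theorem abs_log_sub_le {z a : ℂ} {M : ℝ} (ha : ‖a‖ ≤ M) (hM : 0 < M) (hz : 2 * M ≤ ‖z‖) :
    |Real.log ‖z - a‖ - Real.log ‖z‖| ≤ 2 * M / ‖z‖ := by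
  have hz0 : 0 < ‖z‖ := by linarith
  have h1 : ‖z‖ - M ≤ ‖z - a‖ := by
    have := norm_sub_norm_le z a
    linarith
  have h2 : ‖z - a‖ ≤ ‖z‖ + M := (norm_sub_le z a).trans (by linarith)
  have h3 : 0 < ‖z - a‖ := by linarith
  rw [← Real.log_div h3.ne' hz0.ne', abs_le]
  constructor
  · have h4 : 1 - ‖z‖ / ‖z - a‖ ≤ Real.log (‖z - a‖ / ‖z‖) := by
      have := Real.one_sub_inv_le_log_of_pos (div_pos h3 hz0)
      rwa [inv_div] at this
    refine le_trans ?_ h4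
    have h5 : ‖z‖ / ‖z - a‖ ≤ ‖z‖ / (‖z‖ - M) :=
      div_le_div_of_nonneg_left hz0.le (by linarith) h1
    have h6 : ‖z‖ / (‖z‖ - M) ≤ 1 + 2 * M / ‖z‖ := by
      rw [div_le_iff₀ (by linarith), add_mul, div_mul_eq_mul_div, one_mul]
      have h7 : 2 * M * (‖z‖ - M) / ‖z‖ = 2 * M - 2 * M * M / ‖z‖ := by
        field_simp
      rw [h7]
      have h8 : 2 * M * M / ‖z‖ ≤ M := by
        rw [div_le_iff₀ hz0]
        nlinarith
      linarith
    linarith
  · have h4 := Real.log_le_sub_one_of_pos (div_pos h3 hz0)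
    refine h4.trans ?_
    have h5 : ‖z - a‖ / ‖z‖ ≤ 1 + M / ‖z‖ := by
      rw [div_le_iff₀ hz0, add_mul, one_mul, div_mul_cancel₀ _ hz0.ne']
      exact h2
    have h6 : M / ‖z‖ ≤ 2 * M / ‖z‖ := div_le_div_of_nonneg_right (by linarith) hz0.le
    linarith

/-- `xq Q z = log |z| + O(1/|z|)` -/
theorem abs_xq_sub_le {Q : ℂ[X]} (hQ : Q.Monic) (hn : Q.natDegree ≠ 0) {M : ℝ} (hM : 0 < M)
    (hr : ∀ a ∈ Q.roots, ‖a‖ ≤ M) {z : ℂ} (hz : 2 * M ≤ ‖z‖) :
    |xq Q z - Real.log ‖z‖| ≤ 2 * M / ‖z‖ := by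
  have hz0 : 0 < ‖z‖ := by linarith
  have hne : Q.eval z ≠ 0 := by
    intro h
    have := hr z ((mem_roots hQ.ne_zero).2 h)
    linarith
  have hcard : Multiset.card Q.roots = Q.natDegree :=
    (splits_iff_card_roots.1 (IsAlgClosed.splits Q))
  rw [xq_eq_sum hQ hne]
  have hb : |(Q.roots.map fun a => Real.log ‖z - a‖).sum - Q.natDegree * Real.log ‖z‖| ≤
      Q.natDegree * (2 * M / ‖z‖) := by
    rw [← hcard]
    clear hcard hne hn
    revert hr
    generalize Q.roots = s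
    intro hr
    induction s using Multiset.induction_on with
    | empty => simp
    | cons a s ih =>
      have h1 := ih fun b hb => hr b (Multiset.mem_cons_of_mem hb)
      have h2 := abs_log_sub_le (hr a (Multiset.mem_cons_self a s)) hM hz
      rw [Multiset.map_cons, Multiset.sum_cons, Multiset.card_cons]
      push_cast
      rw [abs_le] at h1 h2 ⊢
      constructor
      · linarith [h1.1, h2.1]
      · linarith [h1.2, h2.2]
  have hn0 : (0 : ℝ) < Q.natDegree := by positivity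
  have e : (1 / (Q.natDegree : ℝ)) * (Q.roots.map fun a => Real.log ‖z - a‖).sum - Real.log ‖z‖ =
      (1 / (Q.natDegree : ℝ)) * ((Q.roots.map fun a => Real.log ‖z - a‖).sum -
        Q.natDegree * Real.log ‖z‖) := by
    field_simp
  rw [e, abs_mul, abs_of_pos (by positivity)]
  calc (1 / (Q.natDegree : ℝ)) * |(Q.roots.map fun a => Real.log ‖z - a‖).sum -
        Q.natDegree * Real.log ‖z‖| ≤ (1 / (Q.natDegree : ℝ)) * (Q.natDegree * (2 * M / ‖z‖)) := by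
        gcongr
    _ = 2 * M / ‖z‖ := by field_simp

end Pool.Agent.H22.EH
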