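import Pool.Agent.H7.EH.Bridge
import Pool.Agent.H53.EH.Ray
import Pool.Agent.H23.EH.E1
import Pool.Agent.H22.EH.Reg

/-!
# EHP (MP_ff60c2_an), block A9: the test function as a function of `z` and its plane energy

`tg FF ψ x z = FF (log |z|, x z)` (`= ψ 0` at `0`) for a level function `x : ℂ → ℝ` which near every point is smooth or `≤ η`.
-/

set_option autoImplicit false

open Polynomial Complex MeasureTheory Set Filter Topology
open scoped Real NNReal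
open Pool.Agent.H7.EH Pool.Agent.H53.EH Pool.Agent.H23.EH

noncomputable section

namespace Pool.Agent.H22.EH

/-- near every point, `x` is smooth or `≤ η` -/
def LevelFn (x : ℂ → ℝ) (η : ℝ) : Prop :=
  ∀ z, (∀ n : ℕ, ContDiffAt ℝ n x z) ∨ (∀ᶠ w in 𝓝 z, x w ≤ η)

theorem LevelFn.mono {x : ℂ → ℝ} {η η' : ℝ} (h : LevelFn x η) (hη : η ≤ η') : LevelFn x η' :=
  fun z => (h z).imp id fun h' => h'.mono fun _ hw => hw.trans hη

theorem levelFn_xq (Q : ℂ[X]) {η : ℝ} (hη : 0 ≤ η) : LevelFn (xq Q) η := by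
  intro z
  by_cases hQ : Q.eval z = 0
  · exact Or.inr (eventually_xq_le Q hη (by simp [hQ]))
  · exact Or.inl fun n => contDiffAt_xq Q hQ

theorem contDiffAt_FFx {FF : ℝ × ℝ → ℝ} {n : ℕ} (hFF : ContDiff ℝ n FF) {η : ℝ}
    (hc : ∀ l t, t ≤ η → FF (l, t) = FF (l, η)) {x : ℂ → ℝ} (hx : LevelFn x η) {z : ℂ}
    (hz : z ≠ 0) : ContDiffAt ℝ n (fun w : ℂ => FF (Real.log ‖w‖, x w)) z := by
  have hl : ContDiffAt ℝ n (fun w : ℂ => Real.log ‖w‖) z :=
    ContDiffAt.log (ContDiffAt.norm ℝ contDiffAt_id hz) (by simpa using hz)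
  rcases hx z with h | h
  · exact hFF.contDiffAt.comp z (hl.prodMk (h n))
  · have h1 : ContDiffAt ℝ n (fun w : ℂ => FF (Real.log ‖w‖, η)) z :=
      hFF.contDiffAt.comp z (hl.prodMk contDiffAt_const)
    refine h1.congr_of_eventuallyEq ?_
    filter_upwards [h] with w hw
    exact hc _ _ hw

theorem contDiff_betax {β : ℝ → ℝ} {n : ℕ} (hβ : ContDiff ℝ n β) {η : ℝ}
    (hc : ∀ t, t ≤ η → β t = β η) {x : ℂ → ℝ} (hx : LevelFn x η) :
    ContDiff ℝ n (fun w : ℂ => β (x w)) := by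
  rw [contDiff_iff_contDiffAt]
  intro z
  rcases hx z with h | h
  · exact hβ.contDiffAt.comp z (h n)
  · refine (contDiffAt_const (c := β η)).congr_of_eventuallyEq ?_
    filter_upwards [h] with w hw
    exact hc _ hw

/-- the test function -/
def tg (FF : ℝ × ℝ → ℝ) (ψ : ℝ → ℝ) (x : ℂ → ℝ) (z : ℂ) : ℝ :=
  if z = 0 then ψ 0 else FF (Real.log ‖z‖, x z)

/-- the part of the test function which vanishes near `0` -/
def tvx (FF : ℝ × ℝ → ℝ) (η : ℝ) (x : ℂ → ℝ) (z : ℂ) : ℝ :=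
  if z = 0 then 0 else FF (Real.log ‖z‖, x z) - FF (Real.log ‖z‖, η)

theorem tg_eq {FF : ℝ × ℝ → ℝ} {ψ : ℝ → ℝ} {η : ℝ} (hψ : ∀ r, 0 < r → FF (Real.log r, η) = ψ r)
    (x : ℂ → ℝ) (z : ℂ) : tg FF ψ x z = ψ ‖z‖ + tvx FF η x z := by
  unfold tg tvx
  by_cases hz : z = 0
  · simp [hz]
  · rw [if_neg hz, if_neg hz, hψ _ (norm_pos_iff.2 hz)]
    ring

/-- where `x ≤ η`, the test function is radial -/
theorem tg_eq_of_le {FF : ℝ × ℝ → ℝ} {ψ : ℝ → ℝ} {η : ℝ}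
    (hc : ∀ l t, t ≤ η → FF (l, t) = FF (l, η)) (hψ : ∀ r, 0 < r → FF (Real.log r, η) = ψ r)
    {x : ℂ → ℝ} {z : ℂ} (hz : x z ≤ η) : tg FF ψ x z = ψ ‖z‖ := by
  unfold tg
  by_cases hz0 : z = 0
  · simp [hz0]
  · rw [if_neg hz0, hc _ _ hz, hψ _ (norm_pos_iff.2 hz0)]

theorem contDiff_tvx {FF : ℝ × ℝ → ℝ} {n : ℕ} (hFF : ContDiff ℝ n FF) {η : ℝ}
    (hc : ∀ l t, t ≤ η → FF (l, t) = FF (l, η)) {x : ℂ → ℝ} (hx : LevelFn x η)
    (h0 : ∀ᶠ w in 𝓝 0, x w ≤ η) : ContDiff ℝ n (tvx FF η x) := by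
  rw [contDiff_iff_contDiffAt]
  intro z
  by_cases hz : z = 0
  · subst hz
    refine (contDiffAt_const (c := (0 : ℝ))).congr_of_eventuallyEq ?_
    filter_upwards [h0] with w hw
    unfold tvx
    by_cases hw0 : w = 0
    · simp [hw0]
    · rw [if_neg hw0, hc _ _ hw, sub_self]
  · have hl : ContDiffAt ℝ n (fun w : ℂ => Real.log ‖w‖) z :=
      ContDiffAt.log (ContDiffAt.norm ℝ contDiffAt_id hz) (by simpa using hz)
    have h1 : ContDiffAt ℝ n (fun w : ℂ => FF (Real.log ‖w‖, η)) z :=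
      hFF.contDiffAt.comp z (hl.prodMk contDiffAt_const)
    refine ((contDiffAt_FFx hFF hc hx hz).sub h1).congr_of_eventuallyEq ?_
    filter_upwards [isOpen_ne.mem_nhds hz] with w hw
    unfold tvx
    rw [if_neg hw]

theorem contDiffAt_tg {FF : ℝ × ℝ → ℝ} {ψ : ℝ → ℝ} {n : ℕ} (hFF : ContDiff ℝ n FF) {η : ℝ}
    (hc : ∀ l t, t ≤ η → FF (l, t) = FF (l, η)) {x : ℂ → ℝ} (hx : LevelFn x η) {z : ℂ}
    (hz : z ≠ 0) : ContDiffAt ℝ n (tg FF ψ x) z := by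
  refine (contDiffAt_FFx hFF hc hx hz).congr_of_eventuallyEq ?_
  filter_upwards [isOpen_ne.mem_nhds hz] with w hw
  unfold tg
  rw [if_neg hw]

/-- the test function is Lipschitz on every disc -/
theorem lipschitzOnWith_tg {FF : ℝ × ℝ → ℝ} {ψ : ℝ → ℝ} (hFF : ContDiff ℝ 1 FF) {η : ℝ}
    (hc : ∀ l t, t ≤ η → FF (l, t) = FF (l, η))
    (hψ : ∀ r, 0 < r → FF (Real.log r, η) = ψ r) {x : ℂ → ℝ} (hx : LevelFn x η)
    (h0 : ∀ᶠ w in 𝓝 0, x w ≤ η) {R : ℝ} {L : ℝ≥0} (hL : LipschitzOnWith L ψ (Icc 0 R)) :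
    ∃ K : ℝ≥0, LipschitzOnWith K (tg FF ψ x) (Metric.closedBall 0 R) := by
  have hFF' : ContDiff ℝ ((1 : ℕ) : WithTop ℕ∞) FF := by exact_mod_cast hFF
  have hv := contDiff_tvx hFF' hc hx h0
  obtain ⟨K, hK⟩ := lipschitzOnWith_of_contDiff (by exact_mod_cast hv) R
  refine ⟨L * 1 + K, ?_⟩
  have h1 : LipschitzOnWith (L * 1) (fun z : ℂ => ψ ‖z‖) (Metric.closedBall 0 R) :=
    hL.comp (lipschitzWith_one_norm.lipschitzOnWith)
      (fun z hz => ⟨norm_nonneg _, by simpa using hz⟩)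
  have h2 := h1.add hK
  intro z hz w hw
  rw [tg_eq hψ x z, tg_eq hψ x w]
  exact h2 hz hw

/-! ### plane energy -/

theorem gsq_eq (u : ℂ → ℝ) (z : ℂ) : gsq u z = ‖fderiv ℝ u z‖ ^ 2 := by
  rw [norm_sq_functional]
  rfl

theorem setIntegral_ball_split {f : ℂ → ℝ} {l1 l2 : ℝ} (hl : l1 ≤ l2)
    (hf : IntegrableOn f (Metric.ball (0 : ℂ) (Real.exp l2))) :
    ∫ z in Metric.ball (0 : ℂ) (Real.exp l2), f z =
      (∫ z in Metric.ball (0 : ℂ) (Real.exp l1), f z) + ∫ z in ann l1 l2, f z := by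
  have hle : Real.exp l1 ≤ Real.exp l2 := Real.exp_le_exp.2 hl
  have hU : Metric.ball (0 : ℂ) (Real.exp l2)
      = (Metric.ball (0 : ℂ) (Real.exp l1) ∪ (Metric.sphere (0 : ℂ) (Real.exp l1) ∩
          Metric.ball (0 : ℂ) (Real.exp l2))) ∪ ann l1 l2 := by
    ext z
    simp only [Metric.mem_ball, dist_zero_right, mem_union, Metric.mem_sphere, mem_inter_iff, ann,
      mem_setOf_eq]
    constructor
    · intro h
      rcases lt_trichotomy ‖z‖ (Real.exp l1) with h1 | h1 | h1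
      · exact Or.inl (Or.inl h1)
      · exact Or.inl (Or.inr ⟨h1, h⟩)
      · exact Or.inr ⟨h1, h⟩
    · rintro ((h | h) | h)
      · exact lt_of_lt_of_le h hle
      · exact h.2
      · exact h.2
  have hs0 : volume (Metric.sphere (0 : ℂ) (Real.exp l1) ∩
          Metric.ball (0 : ℂ) (Real.exp l2)) = 0 :=
    measure_mono_null inter_subset_left
      (Measure.addHaar_sphere_of_ne_zero volume 0 (Real.exp_pos _).ne')
  have hannm : MeasurableSet (ann l1 l2) := (isOpen_ann l1 l2).measurableSet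
  have hb1 : Metric.ball (0 : ℂ) (Real.exp l1) ⊆ Metric.ball (0 : ℂ) (Real.exp l2) :=
    Metric.ball_subset_ball hle
  have hann : ann l1 l2 ⊆ Metric.ball (0 : ℂ) (Real.exp l2) := by
    intro z hz
    simpa using hz.2
  have hdis : Disjoint (Metric.ball (0 : ℂ) (Real.exp l1) ∪ (Metric.sphere (0 : ℂ) (Real.exp l1) ∩
          Metric.ball (0 : ℂ) (Real.exp l2))) (ann l1 l2) := by
    rw [Set.disjoint_left]
    rintro z (hz | hz) hz'
    · have h3 : ‖z‖ < Real.exp l1 := by simpa using hz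
      exact lt_asymm h3 hz'.1
    · have h3 : ‖z‖ = Real.exp l1 := by simpa using hz.1
      exact (ne_of_gt hz'.1) h3
  conv_lhs => rw [hU]
  rw [setIntegral_union hdis hannm (hf.mono_set (union_subset hb1 inter_subset_right))
    (hf.mono_set hann)]
  congr 1
  exact setIntegral_congr_set (union_ae_eq_left_of_ae_eq_empty (ae_eq_empty.2 hs0))

theorem energy_radial_disc {u : ℂ → ℝ} {ψ : ℝ → ℝ} {l1 : ℝ} {L1 : ℝ≥0}
    (hu : ∀ z : ℂ, ‖z‖ < Real.exp l1 → u z = ψ ‖z‖)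
    (hL1 : LipschitzOnWith L1 ψ (Icc 0 (Real.exp l1))) :
    ∫ z in Metric.ball (0 : ℂ) (Real.exp l1), ‖fderiv ℝ u z‖ ^ 2 ≤
      (L1 : ℝ) ^ 2 * (π * Real.exp (2 * l1)) := by
  refine energy_small_disc u L1 ?_
  intro z hz
  have h1 : LipschitzOnWith L1 u (Metric.ball (0 : ℂ) (Real.exp l1)) := by
    have h2 : LipschitzOnWith (L1 * 1) (fun z : ℂ => ψ ‖z‖) (Metric.ball 0 (Real.exp l1)) :=
      hL1.comp (lipschitzWith_one_norm.lipschitzOnWith)
        (fun z hz => ⟨norm_nonneg _, by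
          have : ‖z‖ < Real.exp l1 := by simpa using hz
          exact this.le⟩)
    rw [mul_one] at h2
    intro a ha b hb
    rw [hu a (by simpa using ha), hu b (by simpa using hb)]
    exact h2 ha hb
  exact norm_fderiv_le_of_lipschitzOn ℝ (Metric.isOpen_ball.mem_nhds (by simpa using hz)) h1

/-- **(A9)** the plane energy of the test function in the coordinates `(l, φ)` -/
theorem energy_tg {FF : ℝ × ℝ → ℝ} {ψ : ℝ → ℝ} (hFF : ContDiff ℝ 1 FF) {η : ℝ}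
    (hc : ∀ l t, t ≤ η → FF (l, t) = FF (l, η))
    (hψ : ∀ r, 0 < r → FF (Real.log r, η) = ψ r) {x : ℂ → ℝ} (hx : LevelFn x η) {l1 l2 : ℝ}
    (hl : l1 ≤ l2) (h0 : ∀ z : ℂ, ‖z‖ < Real.exp l1 → x z ≤ η) {L1 L : ℝ≥0}
    (hL1 : LipschitzOnWith L1 ψ (Icc 0 (Real.exp l1)))
    (hL : LipschitzOnWith L ψ (Icc 0 (Real.exp l2))) :
    (∃ K : ℝ≥0, LipschitzOnWith K (tg FF ψ x) (Metric.closedBall 0 (Real.exp l2))) ∧
    ∫ z in Metric.ball (0 : ℂ) (Real.exp l2), gsq (tg FF ψ x) z ≤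
      (L1 : ℝ) ^ 2 * (π * Real.exp (2 * l1)) +
        ∫ l in l1..l2, ∫ φ in (0 : ℝ)..(2 * π),
          (d1 (fun y : ℝ × ℝ => FF (y.1, x (Complex.exp (y.1 + y.2 * I)))) (l, φ) ^ 2 +
            d2 (fun y : ℝ × ℝ => FF (y.1, x (Complex.exp (y.1 + y.2 * I)))) (l, φ) ^ 2) := by
  set u := tg FF ψ x with hu
  have h0' : ∀ᶠ w in 𝓝 (0 : ℂ), x w ≤ η := by
    filter_upwards [Metric.ball_mem_nhds (0 : ℂ) (Real.exp_pos l1)] with w hw
    exact h0 w (by simpa using hw)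
  obtain ⟨K, hK⟩ := lipschitzOnWith_tg hFF hc hψ hx h0' hL
  refine ⟨⟨K, hK⟩, ?_⟩
  have hKb : ∀ z : ℂ, ‖z‖ < Real.exp l2 → ‖fderiv ℝ u z‖ ≤ K := by
    intro z hz
    refine norm_fderiv_le_of_lipschitzOn ℝ (Metric.isOpen_ball.mem_nhds (by simpa using hz))
      (hK.mono Metric.ball_subset_closedBall)
  have hm : Measurable (fun z => ‖fderiv ℝ u z‖ ^ 2) :=
    (measurable_fderiv ℝ u).norm.pow_const 2
  have hint : IntegrableOn (fun z => ‖fderiv ℝ u z‖ ^ 2)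
      (Metric.ball (0 : ℂ) (Real.exp l2)) := by
    refine IntegrableOn.of_bound measure_ball_lt_top hm.aestronglyMeasurable ((K : ℝ) ^ 2) ?_
    refine (ae_restrict_iff' Metric.isOpen_ball.measurableSet).2 (Filter.Eventually.of_forall ?_)
    intro z hz
    rw [Real.norm_eq_abs, abs_of_nonneg (by positivity)]
    exact pow_le_pow_left₀ (norm_nonneg _) (hKb z (by simpa using hz)) 2
  have e1 : ∫ z in Metric.ball (0 : ℂ) (Real.exp l2), gsq u z =
      ∫ z in Metric.ball (0 : ℂ) (Real.exp l2), ‖fderiv ℝ u z‖ ^ 2 := by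
    congr 1
    funext z
    exact gsq_eq u z
  rw [e1, setIntegral_ball_split hl hint]
  have h1 : ∀ z : ℂ, ‖z‖ < Real.exp l1 → u z = ψ ‖z‖ := fun z hz => tg_eq_of_le hc hψ (h0 z hz)
  refine add_le_add (energy_radial_disc h1 hL1) (le_of_eq ?_)
  rw [energy_ann u K hl fun z hz => hKb z hz.2]
  have hcomp : (fun y : ℝ × ℝ => FF (y.1, x (Complex.exp (y.1 + y.2 * I)))) =
      fun y : ℝ × ℝ => u (Complex.exp (y.1 + y.2 * I)) := by
    funext y
    rw [hu]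
    unfold tg
    rw [if_neg (Complex.exp_ne_zero _), Complex.norm_exp]
    simp
  refine intervalIntegral.integral_congr fun l _ => ?_
  refine intervalIntegral.integral_congr fun φ _ => ?_
  have hFF' : ContDiff ℝ ((1 : ℕ) : WithTop ℕ∞) FF := by exact_mod_cast hFF
  have hd : DifferentiableAt ℝ u (Complex.exp (((l, φ) : ℝ × ℝ).1 + ((l, φ) : ℝ × ℝ).2 * I)) :=
    (contDiffAt_tg hFF' hc hx (Complex.exp_ne_zero _)).differentiableAt (by norm_num)
  obtain ⟨g1, g2⟩ := fderiv_comp_exp hd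
  simp only [hcomp]
  unfold d1 d2
  rw [g1, g2]
  rfl

end Pool.Agent.H22.EH
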