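import Pool.Agent.H15.EH.A24
import Pool.Agent.H56.EH.TC
import Pool.Agent.H9.EH.A4
import Pool.Agent.H22.EH.Reg2

/-!
# EHP (MP_ff60c2_an): block EN, the test function on the plane

`EN_of`: the output of the energy part in coordinates (`energy_coord`, a hypothesis here) gives the Lipschitz test function
on the disc `|z| ≤ R`.
-/

set_option autoImplicit false

open Polynomial MeasureTheory Set Filter Topology
open scoped Real NNReal

noncomputable section

namespace Pool.Agent.H22.EH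

open Pool.Agent.H23.EH (d1 d2)
open Pool.Agent.H15.EH (FData)
open Pool.Agent.H24.EH (ex gQ yQ Mx mn rho Touch Bp En FHyp PolarLip SmallOn FF)

/-! ### the level function -/

theorem continuous_gQ {n : ℕ} (a : Fin n → ℂ) : Continuous (gQ a) := by
  unfold gQ
  refine continuous_const.mul ?_
  exact Real.continuous_posLog.comp (by fun_prop)

theorem gQ_zero_of_le {n : ℕ} (a : Fin n → ℂ) {z : ℂ} (hz : ‖∏ j, (z - a j)‖ ≤ 1) :
    gQ a z = 0 := by
  unfold gQ
  have h : Real.posLog ‖∏ j, (z - a j)‖ = 0 := by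
    rw [Real.posLog_eq_zero_iff, abs_of_nonneg (norm_nonneg _)]
    exact hz
  rw [h, mul_zero]

theorem levelFn_gQ {n : ℕ} (a : Fin n → ℂ) {η : ℝ} (hη : 0 < η) : LevelFn (gQ a) η := by
  intro z
  by_cases hz : ‖∏ j, (z - a j)‖ ≤ 1
  · right
    have h0 : gQ a z < η := by
      rw [gQ_zero_of_le a hz]
      exact hη
    exact ((continuous_gQ a).tendsto z |>.eventually (gt_mem_nhds h0)).mono fun w hw => hw.le
  · left
    intro m
    push Not at hz
    have hne : ∏ j, (z - a j) ≠ 0 := by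
      intro h
      rw [h, norm_zero] at hz
      linarith
    have hc : Continuous fun w : ℂ => ‖∏ j, (w - a j)‖ := by fun_prop
    have hev : ∀ᶠ w in 𝓝 z, 1 < ‖∏ j, (w - a j)‖ := (hc.tendsto z).eventually (lt_mem_nhds hz)
    have h1 : ContDiffAt ℝ m (fun w : ℂ => (1 / (n : ℝ)) * Real.log ‖∏ j, (w - a j)‖) z := by
      refine contDiffAt_const.mul ?_
      refine ContDiffAt.log ?_ (norm_ne_zero_iff.2 hne)
      refine ContDiffAt.norm ℝ ?_ hne
      exact contDiffAt_prod fun j _ => contDiffAt_id.sub contDiffAt_const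
    refine h1.congr_of_eventuallyEq ?_
    filter_upwards [hev] with w hw
    unfold gQ
    rw [Real.posLog_eq_log]
    rw [abs_of_nonneg (norm_nonneg _)]
    exact hw.le

/-! ### the truncated function of `(l, t)` -/

theorem FF_of_le (F : ℝ → ℝ → ℝ) {η : ℝ} (hη : 0 < η) {l t : ℝ} (ht : t ≤ η) :
    FF F η l t = F l (2 * η) := by
  have h := (Pool.Agent.H15.EH.Bp_props η hη).2.2.2.1 t ht
  unfold FF
  rw [h.1]

theorem FF_of_ge (F : ℝ → ℝ → ℝ) {η : ℝ} (hη : 0 < η) {l t : ℝ} (ht : 3 * η ≤ t) :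
    FF F η l t = F l t := by
  have h := (Pool.Agent.H15.EH.Bp_props η hη).2.2.2.2.1 t ht
  unfold FF
  rw [h.1]

theorem contDiff_FF2 {F Fl Fg Fll Flg Fgg Fllg : ℝ → ℝ → ℝ}
    (h : FData F Fl Fg Fll Flg Fgg Fllg) {η : ℝ} (hη : 0 < η) :
    ContDiff ℝ 1 (fun x : ℝ × ℝ => FF F η x.1 x.2) := by
  rw [contDiff_iff_contDiffAt]
  intro x
  by_cases hx : 0 < x.2
  · exact ((Pool.Agent.H15.EH.FF_data h hη).F_contDiffOn).contDiffAt
      (Pool.Agent.H15.EH.isOpen_U.mem_nhds hx)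
  · have h1 : ContDiffAt ℝ 1 (fun y : ℝ × ℝ => F y.1 (2 * η)) x := by
      have h2 : ContDiffAt ℝ 1 (fun y : ℝ × ℝ => F y.1 y.2) (x.1, 2 * η) :=
        h.F_contDiffOn.contDiffAt
          (Pool.Agent.H15.EH.isOpen_U.mem_nhds (show (0 : ℝ) < 2 * η by linarith))
      exact h2.comp x (contDiffAt_fst.prodMk contDiffAt_const)
    refine h1.congr_of_eventuallyEq ?_
    have hlt : x.2 < η := by linarith
    filter_upwards [(isOpen_lt continuous_snd continuous_const).mem_nhds hlt] with y hy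
    exact FF_of_le F hη (le_of_lt hy)

/-! ### the radial part -/

theorem lipschitzOnWith_Icc_of_deriv {ψ ψ' : ℝ → ℝ} {R C : ℝ} (hc : ContinuousOn ψ (Icc 0 R))
    (hd : ∀ r, 0 < r → r < R → HasDerivAt ψ (ψ' r) r) (hb : ∀ r, 0 < r → r < R → |ψ' r| ≤ C)
    (hC : 0 ≤ C) : LipschitzOnWith C.toNNReal ψ (Icc 0 R) := by
  refine LipschitzOnWith.of_dist_le_mul ?_
  have key : ∀ x ∈ Icc 0 R, ∀ y ∈ Icc 0 R, x < y → |ψ x - ψ y| ≤ C * |x - y| := by
    intro x hx y hy hxy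
    obtain ⟨c, hc', h1⟩ := exists_hasDerivAt_eq_slope ψ ψ' hxy
      (hc.mono (Icc_subset_Icc hx.1 hy.2))
      (fun r hr => hd r (lt_of_le_of_lt hx.1 hr.1) (lt_of_lt_of_le hr.2 hy.2))
    have h2 := hb c (lt_of_le_of_lt hx.1 hc'.1) (lt_of_lt_of_le hc'.2 hy.2)
    have h3 : 0 < y - x := by linarith
    rw [h1, abs_div, abs_of_pos h3, div_le_iff₀ h3] at h2
    rw [abs_sub_comm, abs_sub_comm x y, abs_of_pos h3]
    exact h2
  intro x hx y hy
  rw [Real.dist_eq, Real.dist_eq, Real.coe_toNNReal C hC]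
  rcases lt_trichotomy x y with h | h | h
  · exact key x hx y hy h
  · subst h
    simp
  · rw [abs_sub_comm, abs_sub_comm x y]
    exact key y hy x hx h

theorem hasDerivAt_psi {F Fl Fg Fll Flg Fgg Fllg : ℝ → ℝ → ℝ}
    (h : FData F Fl Fg Fll Flg Fgg Fllg) {Ft : ℝ → ℝ → ℝ}
    (hFt : ∀ l g, F l g = Ft (Real.exp l) g) {g : ℝ} (hg : 0 < g) {r : ℝ} (hr : 0 < r) :
    HasDerivAt (fun r => Ft r g) (Fl (Real.log r) g * r⁻¹) r := by
  have h1 := (h.dl (Real.log r) g hg).comp r (Real.hasDerivAt_log hr.ne')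
  refine h1.congr_of_eventuallyEq ?_
  filter_upwards [lt_mem_nhds hr] with s hs
  rw [Function.comp_apply, hFt, Real.exp_log hs]

theorem rho_log {r : ℝ} (hr : 0 < r) : rho (Real.log r) = r / 4 := by
  unfold rho
  rw [Real.exp_log hr]

/-- Lipschitz constant of the radial part from a bound `|F_l| ≤ C rho` -/
theorem psi_lip {F Fl Fg Fll Flg Fgg Fllg : ℝ → ℝ → ℝ}
    (h : FData F Fl Fg Fll Flg Fgg Fllg) {Ft : ℝ → ℝ → ℝ}
    (hFt : ∀ l g, F l g = Ft (Real.exp l) g) {g : ℝ} (hg : 0 < g) {R C : ℝ} (hC : 0 ≤ C)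
    (hc : ContinuousOn (fun r => Ft r g) (Icc 0 R))
    (hb : ∀ l, rho l < R / 4 → |Fl l g| ≤ C * rho l) :
    LipschitzOnWith (C / 4).toNNReal (fun r => Ft r g) (Icc 0 R) := by
  refine lipschitzOnWith_Icc_of_deriv hc (fun r h0 _ => hasDerivAt_psi h hFt hg h0) ?_
    (by positivity)
  intro r h0 hR
  have h1 := hb (Real.log r) (by rw [rho_log h0]; linarith)
  rw [rho_log h0] at h1
  rw [abs_mul, abs_of_pos (inv_pos.2 h0)]
  calc |Fl (Real.log r) g| * r⁻¹ ≤ C * (r / 4) * r⁻¹ :=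
        mul_le_mul_of_nonneg_right h1 (inv_pos.2 h0).le
    _ = C / 4 := by field_simp

/-! ### the gradient where the function is radial -/

theorem norm_fderiv_radial_le {u : ℂ → ℝ} {ψ : ℝ → ℝ} {ψ' : ℝ} {z : ℂ}
    (hz : z ≠ 0) (hu : ∀ᶠ w in 𝓝 z, u w = ψ ‖w‖) (hd : HasDerivAt ψ ψ' ‖z‖) :
    ‖fderiv ℝ u z‖ ≤ |ψ'| := by
  have hn : DifferentiableAt ℝ (fun w : ℂ => ‖w‖) z :=
    (ContDiffAt.norm ℝ (contDiffAt_id (n := 1)) hz).differentiableAt (by norm_num)
  have h1 : HasFDerivAt (fun w : ℂ => ψ ‖w‖) (ψ' • fderiv ℝ (fun w : ℂ => ‖w‖) z) z :=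
    hd.comp_hasFDerivAt z hn.hasFDerivAt
  have h2 : fderiv ℝ u z = ψ' • fderiv ℝ (fun w : ℂ => ‖w‖) z := by
    have h3 : u =ᶠ[𝓝 z] fun w => ψ ‖w‖ := hu
    rw [h3.fderiv_eq, h1.fderiv]
  have h4 : ‖fderiv ℝ (fun w : ℂ => ‖w‖) z‖ ≤ 1 := by
    have := norm_fderiv_le_of_lipschitz ℝ (x₀ := z) (lipschitzWith_one_norm (E := ℂ))
    simpa using this
  rw [h2, norm_smul, Real.norm_eq_abs]
  calc |ψ'| * ‖fderiv ℝ (fun w : ℂ => ‖w‖) z‖ ≤ |ψ'| * 1 :=
        mul_le_mul_of_nonneg_left h4 (abs_nonneg _)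
    _ = |ψ'| := mul_one _

theorem norm_fderiv_radial_zero_le {u : ℂ → ℝ} {ψ : ℝ → ℝ} {R : ℝ} {C : ℝ≥0} (hR : 0 < R)
    (hu : ∀ᶠ w in 𝓝 (0 : ℂ), u w = ψ ‖w‖) (hL : LipschitzOnWith C ψ (Icc 0 R)) :
    ‖fderiv ℝ u 0‖ ≤ C := by
  obtain ⟨s, hs, hs0⟩ := hu.exists_mem
  have hV : s ∩ Metric.ball (0 : ℂ) R ∈ 𝓝 (0 : ℂ) :=
    Filter.inter_mem hs (Metric.ball_mem_nhds _ hR)
  refine norm_fderiv_le_of_lipschitzOn ℝ hV ?_
  have h2 : LipschitzOnWith (C * 1) (fun z : ℂ => ψ ‖z‖) (s ∩ Metric.ball (0 : ℂ) R) :=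
    hL.comp (lipschitzWith_one_norm.lipschitzOnWith)
      (fun z hz => ⟨norm_nonneg _, by
        have : ‖z‖ < R := by simpa using hz.2
        exact this.le⟩)
  rw [mul_one] at h2
  intro x hx y hy
  rw [hs0 x hx.1, hs0 y hy.1]
  exact h2 hx hy

/-! ### range -/

theorem ex_log_arg {z : ℂ} (hz : z ≠ 0) : ex (Real.log ‖z‖, Complex.arg z) = z := by
  unfold ex
  have hz' : (0 : ℝ) < ‖z‖ := norm_pos_iff.2 hz
  rw [Complex.exp_add]
  change Complex.exp ((Real.log ‖z‖ : ℝ) : ℂ) * Complex.exp ((Complex.arg z : ℝ) * Complex.I) = z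
  rw [← Complex.ofReal_exp, Real.exp_log hz']
  exact Complex.norm_mul_exp_arg_mul_I z

theorem cosh_range {l g : ℝ} (hl : Real.log 8 ≤ l) (h1 : mn l ≤ g) (h2 : g ≤ Mx l) :
    |Real.cosh g - 2 * rho l| ≤ 1 ∧ 3 ≤ Real.cosh g ∧ 0 < g := by
  have h8 : (8 : ℝ) ≤ Real.exp l := by
    rw [← Real.log_le_iff_le_exp (by norm_num)]
    exact hl
  have hr : 2 ≤ rho l := by
    unfold rho
    linarith
  have hm : (1 : ℝ) ≤ 2 * rho l - 1 := by linarith
  have hmn : mn l = Real.arcosh (2 * rho l - 1) := by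
    unfold mn
    rw [max_eq_right hm]
  have h0 : 0 < mn l := by
    rw [hmn]
    exact Real.arcosh_pos (by linarith)
  have hg : 0 < g := lt_of_lt_of_le h0 h1
  have e1 : Real.cosh (mn l) = 2 * rho l - 1 := by
    rw [hmn, Real.cosh_arcosh hm]
  have e2 : Real.cosh (Mx l) = 2 * rho l + 1 := by
    unfold Mx
    rw [Real.cosh_arcosh (by linarith)]
  have k1 : Real.cosh (mn l) ≤ Real.cosh g := by
    rw [Real.cosh_le_cosh, abs_of_pos h0, abs_of_pos hg]
    exact h1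
  have k2 : Real.cosh g ≤ Real.cosh (Mx l) := by
    rw [Real.cosh_le_cosh, abs_of_pos hg, abs_of_pos (lt_of_lt_of_le hg h2)]
    exact h2
  rw [e1] at k1
  rw [e2] at k2
  refine ⟨?_, by linarith, hg⟩
  rw [abs_le]
  constructor <;> linarith

theorem one_le_of_cosh {g : ℝ} (hg : 0 < g) (h : 3 ≤ Real.cosh g) : 1 ≤ g := by
  by_contra hlt
  push Not at hlt
  have h1 : Real.cosh g ≤ Real.cosh 1 := by
    rw [Real.cosh_le_cosh, abs_of_pos hg, abs_of_pos one_pos]
    exact hlt.le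
  have h2 : Real.cosh 1 < 3 := by
    rw [Real.cosh_eq]
    have h3 := Real.exp_one_lt_d9
    have h4 : Real.exp (-1) ≤ 1 := Real.exp_le_one_iff.2 (by norm_num)
    linarith
  linarith

/-- **(EN)** the test function on the plane, from `energy_coord` and `touch_gap` -/
theorem EN_of {n : ℕ} {a : Fin n → ℂ} {p c : ℝ} (hT : Touch a p)
    {F Fl Fg Fll Flg Fgg Fllg : ℝ → ℝ → ℝ} (hF : FHyp p c F Fl Fg Fll Flg Fgg Fllg)
    (hcoord : ∀ ε, 0 < ε → ∃ L, ∀ l₂, L ≤ l₂ → ∃ L₁, ∀ l₁, l₁ ≤ L₁ → ∃ η₀, 0 < η₀ ∧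
      ∀ η, 0 < η → η ≤ η₀ → En (FF F η) (yQ a) l₁ l₂ ≤ 2 * π * (l₂ + c + ε))
    (hP : PolarLip F) (S : Set ℂ)
    (hS : (∀ z ∈ S, ‖z‖ < 4 * p) ∧ (∀ δ, 0 < δ → SmallOn (fun l => rho l ≤ p - δ) F Fl) ∨
      (∀ z ∈ S, 4 * p < ‖z‖) ∧
        (∀ δ, 0 < δ → SmallOn (fun l => p + δ ≤ rho l ∧ rho l ≤ 1) F Fl))
    (ε d : ℝ) (hε : 0 < ε) (hd : 0 < d) :
    ∃ R₀, 0 < R₀ ∧ ∀ R, R₀ ≤ R → ∃ (u : ℂ → ℝ) (K : NNReal),
      LipschitzOnWith K u (Metric.closedBall 0 R) ∧
      (∀ z, ‖z‖ = R → Real.log R + c - ε ≤ u z) ∧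
      IntegrableOn (Pool.Agent.H24.EH.gsq u) (Metric.ball 0 R) ∧
      (∫ z in Metric.ball (0 : ℂ) R, Pool.Agent.H24.EH.gsq u z) ≤
        2 * π * (Real.log R + c + ε) ∧
      ∀ z ∈ S, ‖∏ j, (z - a j)‖ ≤ Real.exp (-(n * d)) → |u z| ≤ ε ∧ ‖fderiv ℝ u z‖ ≤ ε := by
  have hpi := Real.pi_pos
  have hp := hT.p0
  obtain ⟨Ft, hFt, hFtL⟩ := hP
  obtain ⟨Kr, hKr⟩ := hF.right
  obtain ⟨Kl, hKl⟩ := hF.left
  obtain ⟨L, hL⟩ := hcoord (ε / 2) (by linarith)
  -- the smallness on the part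
  obtain ⟨δ, hδ, hgap⟩ := Pool.Agent.H56.EH.touch_gap hT hd
  obtain ⟨KS, hKS0, hKS⟩ : ∃ KS : ℝ, 0 ≤ KS ∧ ∀ z ∈ S, ‖∏ j, (z - a j)‖ ≤ Real.exp (-(n * d)) →
      ∀ g, 0 < g → g ≤ 1 →
        (z ≠ 0 → |F (Real.log ‖z‖) g| ≤ KS * g ∧
          |Fl (Real.log ‖z‖) g| ≤ KS * rho (Real.log ‖z‖) * g) ∧
        (z = 0 → ∃ R' > 0, ∀ l, rho l < R' / 4 → |F l g| ≤ KS * g ∧
          |Fl l g| ≤ KS * rho l * g) := by
    rcases hS with ⟨hin, hsm⟩ | ⟨hout, hsm⟩
    · obtain ⟨K, hK⟩ := hsm (δ / 2) (by linarith)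
      refine ⟨|K|, abs_nonneg _, fun z hz hQ g h0 h1 => ?_⟩
      have hzp := hin z hz
      have hz1 : ‖z‖ / 4 ≤ p - δ := by
        rcases hgap z hQ with h | h
        · exact h
        · linarith [h.1]
      have hKabs : ∀ l, rho l ≤ p - δ / 2 → |F l g| ≤ |K| * g ∧ |Fl l g| ≤ |K| * rho l * g := by
        intro l hl
        obtain ⟨k1, k2⟩ := hK l g hl h0 h1
        have hr : 0 ≤ rho l := by
          unfold rho
          positivity
        refine ⟨k1.trans (mul_le_mul_of_nonneg_right (le_abs_self _) h0.le), k2.trans ?_⟩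
        exact mul_le_mul_of_nonneg_right (mul_le_mul_of_nonneg_right (le_abs_self _) hr) h0.le
      constructor
      · intro hz0
        have hzn : 0 < ‖z‖ := norm_pos_iff.2 hz0
        exact hKabs _ (by rw [rho_log hzn]; linarith)
      · intro hz0
        subst hz0
        rw [norm_zero] at hz1
        refine ⟨4 * (p - δ / 2), by linarith, fun l hl => ?_⟩
        exact hKabs l (by linarith)
    · obtain ⟨K, hK⟩ := hsm δ hδ
      refine ⟨|K|, abs_nonneg _, fun z hz hQ g h0 h1 => ?_⟩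
      have hzp := hout z hz
      have hz1 : p + δ ≤ ‖z‖ / 4 ∧ ‖z‖ / 4 ≤ 1 := by
        rcases hgap z hQ with h | h
        · linarith
        · exact h
      constructor
      · intro hz0
        have hzn : 0 < ‖z‖ := norm_pos_iff.2 hz0
        obtain ⟨k1, k2⟩ := hK (Real.log ‖z‖) g (by
          change p + δ ≤ rho (Real.log ‖z‖) ∧ rho (Real.log ‖z‖) ≤ 1
          rw [rho_log hzn]
          exact hz1) h0 h1
        have hr : 0 ≤ rho (Real.log ‖z‖) := by
          unfold rho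
          positivity
        refine ⟨k1.trans (mul_le_mul_of_nonneg_right (le_abs_self _) h0.le), k2.trans ?_⟩
        exact mul_le_mul_of_nonneg_right (mul_le_mul_of_nonneg_right (le_abs_self _) hr) h0.le
      · intro hz0
        subst hz0
        rw [norm_zero] at hzp
        linarith
  -- `R₀`
  have hlim : Tendsto (fun R : ℝ => |Kr| * R⁻¹) atTop (𝓝 0) := by
    simpa using tendsto_inv_atTop_zero.const_mul |Kr|
  obtain ⟨R1, hR1⟩ := eventually_atTop.1 (hlim.eventually (gt_mem_nhds hε))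
  refine ⟨max (max 8 (Real.exp L)) R1, lt_of_lt_of_le (by norm_num)
    ((le_max_left _ _).trans (le_max_left _ _)), fun R hR => ?_⟩
  have hR8 : 8 ≤ R := ((le_max_left _ _).trans (le_max_left _ _)).trans hR
  have hRL : Real.exp L ≤ R := ((le_max_right _ _).trans (le_max_left _ _)).trans hR
  have hRR1 : R1 ≤ R := (le_max_right _ _).trans hR
  have hR0 : 0 < R := by linarith
  have hexpR : Real.exp (Real.log R) = R := Real.exp_log hR0
  have hLR : L ≤ Real.log R := (Real.le_log_iff_exp_le hR0).2 hRL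
  have h8R : Real.log 8 ≤ Real.log R := Real.log_le_log (by norm_num) hR8
  obtain ⟨L₁, hL₁⟩ := hL (Real.log R) hLR
  -- `Q` is small near `0`
  have hQ0 : ∀ᶠ w in 𝓝 (0 : ℂ), ‖∏ j, (w - a j)‖ < 1 := by
    have hc : Continuous fun w : ℂ => ‖∏ j, (w - a j)‖ := by fun_prop
    refine (hc.tendsto 0).eventually (gt_mem_nhds ?_)
    rw [norm_prod]
    simpa using hT.a0
  obtain ⟨r0, hr0, hr0'⟩ := Metric.eventually_nhds_iff_ball.1 hQ0
  -- `l₁`
  have hlim2 : Tendsto (fun l : ℝ => (|Kl| / 4) ^ 2 * (π * Real.exp (2 * l))) atBot (𝓝 0) := by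
    have h1 : Tendsto (fun l : ℝ => Real.exp (2 * l)) atBot (𝓝 0) :=
      Real.tendsto_exp_atBot.comp (tendsto_id.const_mul_atBot (by norm_num))
    simpa using (h1.const_mul π).const_mul ((|Kl| / 4) ^ 2)
  have hlim3 : Tendsto (fun l : ℝ => Real.exp l) atBot (𝓝 0) := Real.tendsto_exp_atBot
  obtain ⟨l₁, hl₁a, hl₁b, hl₁c, hl₁d, hl₁e⟩ : ∃ l₁ : ℝ, l₁ ≤ L₁ ∧ l₁ ≤ Real.log R ∧
      Real.exp l₁ < r0 ∧ Real.exp l₁ < 2 * p ∧
      (|Kl| / 4) ^ 2 * (π * Real.exp (2 * l₁)) < π * ε := by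
    have h1 := (eventually_le_atBot L₁).and ((eventually_le_atBot (Real.log R)).and
      ((hlim3.eventually (gt_mem_nhds hr0)).and
        ((hlim3.eventually (gt_mem_nhds (show (0 : ℝ) < 2 * p by linarith))).and
          (hlim2.eventually (gt_mem_nhds (show (0 : ℝ) < π * ε by positivity))))))
    obtain ⟨l₁, h⟩ := h1.exists
    exact ⟨l₁, h.1, h.2.1, h.2.2.1, h.2.2.2.1, h.2.2.2.2⟩
  obtain ⟨η₀, hη₀, hE⟩ := hL₁ l₁ hl₁a
  -- `η`
  obtain ⟨η, hη, hηa, hηb, hηc⟩ : ∃ η : ℝ, 0 < η ∧ η ≤ η₀ ∧ 3 * η ≤ 1 ∧ KS * (2 * η) ≤ ε := by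
    refine ⟨min (min η₀ (1 / 3)) (ε / (2 * (KS + 1))), by positivity, ?_, ?_, ?_⟩
    · exact (min_le_left _ _).trans (min_le_left _ _)
    · have : min (min η₀ (1 / 3)) (ε / (2 * (KS + 1))) ≤ 1 / 3 :=
        (min_le_left _ _).trans (min_le_right _ _)
      linarith
    · have h1 : min (min η₀ (1 / 3)) (ε / (2 * (KS + 1))) ≤ ε / (2 * (KS + 1)) := min_le_right _ _
      calc KS * (2 * min (min η₀ (1 / 3)) (ε / (2 * (KS + 1)))) ≤
            KS * (2 * (ε / (2 * (KS + 1)))) := by gcongr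
        _ = ε * (KS / (KS + 1)) := by field_simp
        _ ≤ ε * 1 := by
            refine mul_le_mul_of_nonneg_left ?_ hε.le
            rw [div_le_one (by linarith)]
            linarith
        _ = ε := mul_one _
  have h2η : 0 < 2 * η := by linarith
  have h2η1 : 2 * η ≤ 1 := by linarith
  -- the test function
  set ψ : ℝ → ℝ := fun r => Ft r (2 * η) with hψdef
  have hc : ∀ l t, t ≤ η → (fun x : ℝ × ℝ => FF F η x.1 x.2) (l, t) =
      (fun x : ℝ × ℝ => FF F η x.1 x.2) (l, η) := by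
    intro l t ht
    change FF F η l t = FF F η l η
    rw [FF_of_le F hη ht, FF_of_le F hη le_rfl]
  have hψ : ∀ r, 0 < r → (fun x : ℝ × ℝ => FF F η x.1 x.2) (Real.log r, η) = ψ r := by
    intro r hr
    change FF F η (Real.log r) η = Ft r (2 * η)
    rw [FF_of_le F hη le_rfl, hFt, Real.exp_log hr]
  obtain ⟨LR, hLRψ⟩ := hFtL (2 * η) h2η R hR0
  have hcontψ : ∀ r, r ≤ R → ContinuousOn ψ (Icc 0 r) := fun r hr =>
    hLRψ.continuousOn.mono (Icc_subset_Icc le_rfl hr)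
  have hle1 : Real.exp l₁ ≤ R := by
    rw [← hexpR]
    exact Real.exp_le_exp.2 hl₁b
  have hL1 : LipschitzOnWith (|Kl| / 4).toNNReal ψ (Icc 0 (Real.exp l₁)) := by
    refine psi_lip hF.data hFt h2η (abs_nonneg _) (hcontψ _ hle1) ?_
    intro l hl
    have hr : 0 ≤ rho l := by
      unfold rho
      positivity
    have h1 := (hKl l (2 * η) (by linarith) h2η h2η1).1
    exact h1.trans (mul_le_mul_of_nonneg_right (le_abs_self _) hr)
  have h0x : ∀ z : ℂ, ‖z‖ < Real.exp l₁ → gQ a z ≤ η := by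
    intro z hz
    rw [gQ_zero_of_le a (hr0' z (by simpa using hz.trans hl₁c)).le]
    exact hη.le
  have hLRψ' : LipschitzOnWith LR ψ (Icc 0 (Real.exp (Real.log R))) := by
    rw [hexpR]
    exact hLRψ
  obtain ⟨⟨K, hK⟩, hen⟩ := energy_tg (contDiff_FF2 hF.data hη) hc hψ (levelFn_gQ a hη) hl₁b h0x
    hL1 hLRψ'
  rw [hexpR] at hK hen
  set u : ℂ → ℝ := tg (fun x : ℝ × ℝ => FF F η x.1 x.2) ψ (gQ a) with hu
  refine ⟨u, K, hK, ?_, ?_, ?_, ?_⟩
  · -- lower bound on the circle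
    intro z hz
    have hz0 : z ≠ 0 := by
      rw [← norm_pos_iff, hz]
      exact hR0
    have hex := ex_log_arg hz0
    rw [hz] at hex
    have hyq : yQ a (Real.log R, Complex.arg z) = gQ a z := by
      unfold yQ
      rw [hex]
    have hlog4 : Real.log 4 ≤ Real.log R := Real.log_le_log (by norm_num) (by linarith)
    have i1 := Pool.Agent.H9.EH.le_yQ hT (Real.log R) (Complex.arg z) hlog4
    have i2 := Pool.Agent.H9.EH.yQ_le hT (Real.log R) (Complex.arg z)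
    rw [hyq] at i1 i2
    obtain ⟨j1, j2, j3⟩ := cosh_range h8R i1 i2
    have j4 := one_le_of_cosh j3 j2
    have huz : u z = F (Real.log R) (gQ a z) := by
      rw [hu]
      unfold tg
      rw [if_neg hz0, hz]
      change FF F η (Real.log R) (gQ a z) = _
      rw [FF_of_ge F hη (by linarith)]
    have j5 := (hKr (Real.log R) (gQ a z) h8R j3 j1).2.2.2.2
    have j6 : Kr * Real.exp (-Real.log R) ≤ |Kr| * R⁻¹ := by
      rw [Real.exp_neg, hexpR]
      exact mul_le_mul_of_nonneg_right (le_abs_self _) (by positivity)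
    have j7 := hR1 R hRR1
    have j8 := (abs_le.1 (j5.trans j6)).1
    rw [huz]
    linarith
  · -- integrability
    have hKb : ∀ z : ℂ, ‖z‖ < R → ‖fderiv ℝ u z‖ ≤ K := by
      intro z hz
      exact norm_fderiv_le_of_lipschitzOn ℝ (Metric.isOpen_ball.mem_nhds (by simpa using hz))
        (hK.mono Metric.ball_subset_closedBall)
    have hg : (Pool.Agent.H24.EH.gsq u) = fun z => ‖fderiv ℝ u z‖ ^ 2 := by
      funext z
      exact gsq_eq u z
    rw [hg]
    refine IntegrableOn.of_bound measure_ball_lt_top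
      ((measurable_fderiv ℝ u).norm.pow_const 2).aestronglyMeasurable ((K : ℝ) ^ 2) ?_
    refine (ae_restrict_iff' Metric.isOpen_ball.measurableSet).2 (Filter.Eventually.of_forall ?_)
    intro z hz
    rw [Real.norm_eq_abs, abs_of_nonneg (by positivity)]
    exact pow_le_pow_left₀ (norm_nonneg _) (hKb z (by simpa using hz)) 2
  · -- energy
    have i1 : (∫ z in Metric.ball (0 : ℂ) R, Pool.Agent.H24.EH.gsq u z) ≤
        ((|Kl| / 4).toNNReal : ℝ) ^ 2 * (π * Real.exp (2 * l₁)) +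
          En (FF F η) (yQ a) l₁ (Real.log R) := hen
    rw [Real.coe_toNNReal _ (by positivity)] at i1
    have i2 := hE η hη hηa
    nlinarith
  · -- smallness
    intro z hz hQ
    have hlt1 : Real.exp (-(n * d)) ≤ 1 := by
      rw [Real.exp_le_one_iff]
      have : 0 ≤ (n : ℝ) * d := by positivity
      linarith
    have hn0 : (0 : ℝ) < n := by exact_mod_cast hT.hn
    have hlt2 : Real.exp (-(n * d)) < 1 := by
      rw [Real.exp_lt_one_iff]
      have : 0 < (n : ℝ) * d := by positivity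
      linarith
    obtain ⟨k1, k2⟩ := hKS z hz hQ (2 * η) h2η h2η1
    have hgz : ∀ w : ℂ, ‖∏ j, (w - a j)‖ ≤ 1 → u w = ψ ‖w‖ := by
      intro w hw
      refine tg_eq_of_le hc hψ ?_
      rw [gQ_zero_of_le a hw]
      exact hη.le
    have hev : ∀ᶠ w in 𝓝 z, u w = ψ ‖w‖ := by
      have hcq : Continuous fun w : ℂ => ‖∏ j, (w - a j)‖ := by fun_prop
      have h1 : ∀ᶠ w in 𝓝 z, ‖∏ j, (w - a j)‖ < 1 :=
        (hcq.tendsto z).eventually (gt_mem_nhds (lt_of_le_of_lt hQ hlt2))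
      filter_upwards [h1] with w hw
      exact hgz w hw.le
    have huz := hgz z (hQ.trans hlt1)
    by_cases hz0 : z = 0
    · obtain ⟨R', hR', hb⟩ := k2 hz0
      subst hz0
      set R'' := min R' R with hR''
      have hR''0 : 0 < R'' := lt_min hR' hR0
      have hLip : LipschitzOnWith (KS * (2 * η) / 4).toNNReal ψ (Icc 0 R'') := by
        refine psi_lip hF.data hFt h2η (by positivity) (hcontψ _ (min_le_right _ _)) ?_
        intro l hl
        have h1 := (hb l (lt_of_lt_of_le hl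
          (by have := min_le_left R' R; linarith))).2
        refine h1.trans (le_of_eq ?_)
        ring
      constructor
      · rw [huz, norm_zero]
        have hcw : ContinuousWithinAt ψ (Icc 0 R'') 0 :=
          (hcontψ R'' (min_le_right _ _)) 0 ⟨le_rfl, hR''0.le⟩
        have hcw' : Tendsto ψ (𝓝[Ioo 0 R''] 0) (𝓝 (ψ 0)) :=
          hcw.mono Ioo_subset_Icc_self
        have : (𝓝[Ioo (0 : ℝ) R''] 0).NeBot := left_nhdsWithin_Ioo_neBot hR''0
        refine le_of_tendsto hcw'.abs ?_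
        filter_upwards [self_mem_nhdsWithin] with r hr
        have e1 : ψ r = F (Real.log r) (2 * η) := by
          rw [hFt, Real.exp_log hr.1]
        rw [e1]
        have h1 := (hb (Real.log r) (by
          rw [rho_log hr.1]
          have := lt_of_lt_of_le hr.2 (min_le_left R' R)
          linarith)).1
        exact h1.trans hηc
      · have h1 := norm_fderiv_radial_zero_le hR''0 hev hLip
        rw [Real.coe_toNNReal _ (by positivity)] at h1
        have : 0 ≤ KS * (2 * η) := by positivity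
        linarith
    · have hzn : 0 < ‖z‖ := norm_pos_iff.2 hz0
      obtain ⟨m1, m2⟩ := k1 hz0
      constructor
      · rw [huz]
        have e1 : ψ ‖z‖ = F (Real.log ‖z‖) (2 * η) := by
          rw [hFt, Real.exp_log hzn]
        rw [e1]
        exact m1.trans hηc
      · have h1 := norm_fderiv_radial_le hz0 hev (hasDerivAt_psi hF.data hFt h2η hzn)
        refine h1.trans ?_
        rw [rho_log hzn] at m2
        rw [abs_mul, abs_of_pos (inv_pos.2 hzn)]
        calc |Fl (Real.log ‖z‖) (2 * η)| * ‖z‖⁻¹ ≤ KS * (‖z‖ / 4) * (2 * η) * ‖z‖⁻¹ :=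
              mul_le_mul_of_nonneg_right m2 (inv_pos.2 hzn).le
          _ = KS * (2 * η) / 4 := by field_simp
          _ ≤ ε := by
              have : 0 ≤ KS * (2 * η) := by positivity
              linarith

end Pool.Agent.H22.EH
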